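import Mathlib

/-!
Linear algebra for a symmetric bilinear form of Lorentzian type.
-/

namespace Pool.Agent.P.MP_8b77e3_gt

variable {V : Type*} [AddCommGroup V] [Module ℝ V]

/-- A symmetric form that is positive definite on the orthogonal complement of each timelike
vector. -/
structure Lor (B : V →ₗ[ℝ] V →ₗ[ℝ] ℝ) : Prop where
  symm : ∀ u v, B u v = B v u
  pos : ∀ y v, B y y < 0 → B y v = 0 → v ≠ 0 → 0 < B v v

variable {B : V →ₗ[ℝ] V →ₗ[ℝ] ℝ}

theorem Lor.nonneg (h : Lor B) {y v : V} (hy : B y y < 0) (hv : B y v = 0) : 0 ≤ B v v := by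
  by_cases h0 : v = 0
  · simp [h0]
  · exact (h.pos y v hy hv h0).le

/-- Two causal vectors on the same side of a timelike vector have nonpositive product. -/
theorem Lor.rev (h : Lor B) {y p l : V} (hy : B y y < 0) (hp : B y p < 0) (hl : B y l < 0)
    (hpp : B p p ≤ 0) (hll : B l l ≤ 0) : B p l ≤ 0 := by
  have h1 := h.nonneg (v := B y l • p - B y p • l) hy (by simp; ring)
  simp only [map_sub, map_smul, LinearMap.sub_apply, LinearMap.smul_apply, smul_eq_mul,
    h.symm l p] at h1
  by_contra hc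
  push Not at hc
  have h2 : 0 < B y p * B y l := mul_pos_of_neg_of_neg hp hl
  nlinarith [mul_pos h2 hc, mul_nonneg (mul_self_nonneg (B y l)) (neg_nonneg.2 hpp),
    mul_nonneg (mul_self_nonneg (B y p)) (neg_nonneg.2 hll)]

variable [FiniteDimensional ℝ V]

theorem Lor.exists_unit (h : Lor B) {ι : Type*} [Fintype ι] (v : ι → V) {y : V}
    (hy : B y y < 0) (hc : Fintype.card ι + 1 < Module.finrank ℝ V) :
    ∃ u, B u u = 1 ∧ B y u = 0 ∧ ∀ i, B (v i) u = 0 := by
  let F : V →ₗ[ℝ] (Option ι → ℝ) := LinearMap.pi fun o => B (o.elim y v)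
  have hF : LinearMap.ker F ≠ ⊥ := F.ker_ne_bot_of_finrank_lt (by simpa using hc)
  obtain ⟨w, hw, hw0⟩ := Submodule.exists_mem_ne_zero_of_ne_bot hF
  have hw1 : ∀ o, B (Option.elim o y v) w = 0 := fun o => congrFun (LinearMap.mem_ker.1 hw) o
  have hp : 0 < B w w := h.pos y w hy (hw1 none) hw0
  have hs : 0 < √(B w w) := Real.sqrt_pos.2 hp
  refine ⟨(√(B w w))⁻¹ • w, ?_, ?_, fun i => ?_⟩
  · simp only [map_smul, LinearMap.smul_apply, smul_eq_mul]
    field_simp
    rw [Real.sq_sqrt hp.le]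
  · have := hw1 none
    simp only [Option.elim] at this
    simp [this]
  · have := hw1 (some i)
    simp only [Option.elim] at this
    simp [this]

/-- Expansion in an orthonormal basis `v i, u₁, u₂, f` with `f` timelike. -/
theorem Lor.expand (h : Lor B) {ι : Type*} [Fintype ι] {v : ι → V}
    (hv1 : ∀ i, B (v i) (v i) = 1) (hv0 : ∀ i j, i ≠ j → B (v i) (v j) = 0)
    (hc : Fintype.card ι + 3 = Module.finrank ℝ V) {u₁ u₂ f : V}
    (h11 : B u₁ u₁ = 1) (h22 : B u₂ u₂ = 1) (hff : B f f = -1) (h12 : B u₁ u₂ = 0)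
    (h1f : B u₁ f = 0) (h2f : B u₂ f = 0) (hv₁ : ∀ i, B (v i) u₁ = 0)
    (hv₂ : ∀ i, B (v i) u₂ = 0) (hvf : ∀ i, B (v i) f = 0) {a : V} (ha : ∀ i, B (v i) a = 0)
    (b : V) : B a b = B a u₁ * B b u₁ + B a u₂ * B b u₂ - B a f * B b f := by
  let w : ι ⊕ Fin 3 → V := Sum.elim v ![u₁, u₂, f]
  have h21 := h.symm u₂ u₁
  have hf1 := h.symm f u₁
  have hf2 := h.symm f u₂
  have hli : LinearIndependent ℝ w := by
    refine LinearMap.linearIndependent_of_isOrthoᵢ (B := B) ?_ ?_
    · rw [LinearMap.isOrthoᵢ_def]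
      rintro (i | i) (j | j) hij
      · exact hv0 i j fun e => hij (by rw [e])
      · fin_cases j
        · exact hv₁ i
        · exact hv₂ i
        · exact hvf i
      · fin_cases i
        · exact (h.symm _ _).trans (hv₁ j)
        · exact (h.symm _ _).trans (hv₂ j)
        · exact (h.symm _ _).trans (hvf j)
      · fin_cases i <;> fin_cases j <;> simp_all [w]
    · rintro (i | i)
      · simp [w, hv1]
      · fin_cases i <;> simp [w, h11, h22, hff]
  have hsp := hli.span_eq_top_of_card_eq_finrank' (by simpa using hc)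
  set r := a - B a u₁ • u₁ - B a u₂ • u₂ + B a f • f with hr
  have hw : ∀ i, B (w i) r = 0 := by
    rintro (i | i)
    · simp [w, hr, ha, hv₁, hv₂, hvf]
    · fin_cases i
      · simp [w, hr, h11, h12, h1f, h.symm u₁ a]
      · simp [w, hr, h22, h21, h12, h2f, h.symm u₂ a]
      · simp [w, hr, hff, hf1, hf2, h1f, h2f, h.symm f a]
  have hb : B b r = 0 := by
    have hb : b ∈ Submodule.span ℝ (Set.range w) := hsp ▸ Submodule.mem_top
    induction hb using Submodule.span_induction with
    | mem x hx => obtain ⟨i, rfl⟩ := hx; exact hw i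
    | zero => simp
    | add x y _ _ hx hy => rw [B.map_add, LinearMap.add_apply, hx, hy, add_zero]
    | smul c x _ hx => rw [B.map_smul, LinearMap.smul_apply, hx, smul_zero]
  simp only [hr, map_add, map_sub, map_smul, smul_eq_mul, h.symm b a] at hb
  linarith

end Pool.Agent.P.MP_8b77e3_gt
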