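import Pool.Agent.P.MP_8b77e3_gt.Lorentz

/-!
A finite-volume right-angled hyperbolic polytope has dimension at most 8.

Project an interior point to the farthest facet, and repeat inside that facet. If `T` is the
hyperbolic sine of the distance to the farthest facet, `1 / T ^ 2` grows by at least one at each
step. In dimension two `T ^ 2 ≥ 1 / 7`.
-/

namespace Pool.Agent.P.MP_8b77e3_gt

open Filter Topology

set_option linter.unusedSectionVars false

variable {V : Type*} [AddCommGroup V] [Module ℝ V] {B : V →ₗ[ℝ] V →ₗ[ℝ] ℝ}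
  {ι : Type*} [Fintype ι] [DecidableEq ι] {e : ι → V}

/-- Unit normals of a right-angled polytope whose cone has no spacelike vector. -/
structure Conf (B : V →ₗ[ℝ] V →ₗ[ℝ] ℝ) (e : ι → V) : Prop where
  lor : Lor B
  unit : ∀ i, B (e i) (e i) = 1
  gram : ∀ i j, i ≠ j → B (e i) (e j) = 0 ∨ B (e i) (e j) ≤ -1
  cone : ∀ z, (∀ i, B z (e i) ≤ 0) → B z z ≤ 0

/-- `y` is an interior point of the face cut out by the mutually orthogonal normals in `S`. -/
structure Face (B : V →ₗ[ℝ] V →ₗ[ℝ] ℝ) (e : ι → V) (S : Finset ι) (y : V) : Prop where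
  clique : ∀ s ∈ S, ∀ s' ∈ S, s ≠ s' → B (e s) (e s') = 0
  unit : B y y = -1
  orth : ∀ s ∈ S, B y (e s) = 0
  neg : ∀ j, j ∉ S → B y (e j) < 0

/-- `j` gives a facet of the face `S`. -/
def Nb (B : V →ₗ[ℝ] V →ₗ[ℝ] ℝ) (e : ι → V) (S : Finset ι) (j : ι) : Prop :=
  j ∉ S ∧ ∀ s ∈ S, B (e s) (e j) = 0

theorem Conf.gram_le (h : Conf B e) {i j : ι} (hij : i ≠ j) : B (e i) (e j) ≤ 0 := by
  rcases h.gram i j hij with h1 | h1 <;> linarith

/-- A null vector of the face lies on the inner side of every normal that is not a facet. -/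
theorem Conf.null_le (h : Conf B e) {S : Finset ι} {y : V} (hF : Face B e S y) {l : V}
    (hl : ∀ s ∈ S, B l (e s) = 0) (hll : B l l ≤ 0) (hyl : B y l < 0) {j : ι} (hj : j ∉ S)
    (hN : ¬ Nb B e S j) : B l (e j) ≤ 0 := by
  have hs := h.lor.symm
  obtain ⟨s, hsS, hs0⟩ : ∃ s ∈ S, B (e s) (e j) ≠ 0 := by
    by_contra hc
    push Not at hc
    exact hN ⟨hj, hc⟩
  have hsj : s ≠ j := fun e => hj (e ▸ hsS)
  have hg : B (e s) (e j) ≤ -1 := (h.gram s j hsj).resolve_left hs0
  have h1 := h.lor.rev (y := y) (p := e j - B (e s) (e j) • e s) (l := l)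
    (by rw [hF.unit]; norm_num) (by simp [hF.orth s hsS, hF.neg j hj]) hyl
    (by simp [h.unit, hs (e j) (e s)]; nlinarith) hll
  simpa [hs (e s) l, hl s hsS, hs (e j) l] using h1

theorem finite_roots {a b c : ℝ} (h : a + c ≠ 0) :
    {s : ℝ | a + b * s + c * s ^ 2 = 0}.Finite := by
  have hp : (Polynomial.C a + Polynomial.C b * Polynomial.X +
      Polynomial.C c * Polynomial.X ^ 2 : Polynomial ℝ) ≠ 0 := by
    intro h0
    have h1 := congrArg (Polynomial.eval 1) h0
    have h2 := congrArg (Polynomial.eval (-1)) h0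
    simp at h1 h2
    apply h; linarith
  refine (Polynomial.finite_setOfPred_isRoot hp).subset fun s hs => ?_
  simpa [Polynomial.IsRoot] using hs

theorem exists_small {a b : ι → ℝ} (P : ι → Prop) (ha : ∀ i, P i → a i < 0) :
    ∃ ε : ℝ, 0 < ε ∧ ε < 1 ∧ ∀ i, P i → a i - ε * b i < 0 := by
  have h1 : ∀ᶠ ε in 𝓝 (0 : ℝ), ∀ i, P i → a i - ε * b i < 0 := by
    refine eventually_all.2 fun i => ?_
    by_cases hi : P i
    · have hc : ContinuousAt (fun ε : ℝ => a i - ε * b i) 0 := by fun_prop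
      filter_upwards [hc.eventually_lt continuousAt_const (by simpa using ha i hi)] with ε h _
      exact h
    · exact Eventually.of_forall fun _ h => absurd h hi
  have h2 : ∀ᶠ ε in 𝓝 (0 : ℝ), ε < 1 := eventually_lt_nhds one_pos
  obtain ⟨ε, h3, h4⟩ := (((h1.and h2).filter_mono (nhdsWithin_le_nhds (s := Set.Ioi 0))).and
    self_mem_nhdsWithin).exists
  exact ⟨ε, h4, h3.2, h3.1⟩

variable [FiniteDimensional ℝ V]

/-- The cone of a face of dimension at least two has no spacelike vector. -/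
theorem Conf.cov (h : Conf B e) {S : Finset ι} {y : V} (hF : Face B e S y)
    (hc : S.card + 3 ≤ Module.finrank ℝ V) {z : V} (hz : ∀ s ∈ S, B z (e s) = 0)
    (hzz : 0 < B z z) (hN : ∀ j, Nb B e S j → B z (e j) ≤ 0) : False := by
  have hs := h.lor.symm
  have hyy := hF.unit
  have hy0 : B y y < 0 := by rw [hyy]; norm_num
  set c := B y z with hcdef
  have hm2 : 0 < B z z + c ^ 2 := by positivity
  set m := √(B z z + c ^ 2) with hm
  have hm0 : 0 < m := Real.sqrt_pos.2 hm2
  have hmm : m ^ 2 = B z z + c ^ 2 := Real.sq_sqrt hm2.le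
  have hmc : 0 < m + c := by nlinarith [abs_lt_of_sq_lt_sq' (show c ^ 2 < m ^ 2 by linarith) hm0.le]
  set u₀ := m⁻¹ • (z + c • y) with hu₀
  have h00 : B u₀ u₀ = 1 := by
    simp only [hu₀, map_smul, map_add, LinearMap.smul_apply, LinearMap.add_apply, smul_eq_mul,
      hs z y, ← hcdef, hyy]
    field_simp
    linarith
  have hy₀ : B y u₀ = 0 := by simp [hu₀, ← hcdef, hyy]
  have hS₀ : ∀ s ∈ S, B u₀ (e s) = 0 := fun s hs' => by simp [hu₀, hz s hs', hF.orth s hs']
  have hN₀ : ∀ j, Nb B e S j → B y (e j) + B u₀ (e j) < 0 := fun j hj => by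
    have h1 := hN j hj
    have h2 := hF.neg j hj.1
    have : B y (e j) + B u₀ (e j) = m⁻¹ * ((m + c) * B y (e j) + B z (e j)) := by
      simp only [hu₀, map_smul, map_add, LinearMap.smul_apply, LinearMap.add_apply, smul_eq_mul]
      field_simp
      ring
    rw [this]
    exact mul_neg_of_pos_of_neg (inv_pos.2 hm0) (by nlinarith)
  obtain ⟨u₁, h11, hy₁, hw⟩ := h.lor.exists_unit
    (fun o : Option S => o.elim u₀ fun s => e s) hy0 (by simp; omega)
  have h01 : B u₀ u₁ = 0 := hw none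
  have hS₁ : ∀ s ∈ S, B u₁ (e s) = 0 := fun s hs' => (hs _ _).trans (hw (some ⟨s, hs'⟩))
  let l : ℝ → V := fun t => (1 + t ^ 2) • y + (1 - t ^ 2) • u₀ + (2 * t) • u₁
  have hl : ∀ t w, B (l t) w = (B y w + B u₀ w) + 2 * B u₁ w * t + (B y w - B u₀ w) * t ^ 2 := by
    intro t w
    simp only [l, map_smul, map_add, LinearMap.smul_apply, LinearMap.add_apply, smul_eq_mul]
    ring
  have hyl : ∀ t, B y (l t) = -(1 + t ^ 2) := fun t => by
    rw [hs, hl, hyy, hs u₀ y, hy₀, hs u₁ y, hy₁]; ring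
  have hll : ∀ t, B (l t) (l t) = 0 := fun t => by
    rw [hl, hyl, hs u₀, hs u₁, hl, hl, hy₀, hy₁, h00, h11, h01, hs u₁ u₀, h01]; ring
  have hlS : ∀ t, ∀ s ∈ S, B (l t) (e s) = 0 := fun t s hs' => by
    rw [hl, hF.orth s hs', hS₀ s hs', hS₁ s hs']; ring
  have hinf : {t : ℝ | ∀ j, Nb B e S j → B (l t) (e j) < 0}.Infinite := by
    refine infinite_of_mem_nhds (0 : ℝ) (eventually_all.2 fun j => ?_)
    by_cases hj : Nb B e S j
    · have hc : ContinuousAt (fun t : ℝ => B (l t) (e j)) 0 := by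
        simp only [hl]; fun_prop
      filter_upwards [hc.eventually_lt continuousAt_const (by simpa [hl] using hN₀ j hj)]
        with t h _
      exact h
    · exact Eventually.of_forall fun _ h => absurd h hj
  have hfin : (⋃ j ∈ {j | j ∉ S}, {t : ℝ | B (l t) (e j) = 0}).Finite := by
    refine (Set.toFinite _).biUnion fun j hj => ?_
    simp only [hl]
    exact finite_roots (by have := hF.neg j hj; linarith)
  obtain ⟨t, ht, ht'⟩ := hinf.exists_notMem_finite hfin
  have hneg : ∀ j, j ∉ S → B (l t) (e j) < 0 := fun j hj => by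
    by_cases hN' : Nb B e S j
    · exact ht j hN'
    · refine lt_of_le_of_ne (h.null_le hF (hlS t) (hll t).le ?_ hj hN') fun h0 => ht' ?_
      · rw [hyl]; nlinarith [sq_nonneg t]
      · exact Set.mem_biUnion hj h0
  obtain ⟨ε, hε0, hε1, hε⟩ := exists_small (b := fun j => B y (e j)) _ hneg
  have := h.cone (l t - ε • y) fun j => by
    by_cases hj : j ∈ S
    · simp [hlS t j hj, hF.orth j hj]
    · simpa using (hε j hj).le
  simp only [map_sub, map_smul, LinearMap.sub_apply, LinearMap.smul_apply, smul_eq_mul, hll,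
    hs (l t) y, hyl, hyy] at this
  nlinarith [sq_nonneg t, mul_nonneg hε0.le (sq_nonneg t)]

theorem Conf.exists_nb (h : Conf B e) {S : Finset ι} {y : V} (hF : Face B e S y)
    (hc : S.card + 3 ≤ Module.finrank ℝ V) : ∃ a, Nb B e S a := by
  by_contra hn
  push Not at hn
  obtain ⟨u, h11, -, hw⟩ := h.lor.exists_unit (fun s : S => e s) (y := y)
    (by rw [hF.unit]; norm_num) (by simp; omega)
  exact h.cov hF hc (z := u) (fun s hs => (h.lor.symm _ _).trans (hw ⟨s, hs⟩))
    (by rw [h11]; norm_num) fun j hj => absurd hj (hn j)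

/-- Projection of `y` to the facet `a`. -/
noncomputable def proj (B : V →ₗ[ℝ] V →ₗ[ℝ] ℝ) (y a : V) : V :=
  (√(1 + B y a ^ 2))⁻¹ • (y - B y a • a)

theorem proj_apply (y a w : V) :
    √(1 + B y a ^ 2) * B (proj B y a) w = B y w - B y a * B a w := by
  have : 0 < √(1 + B y a ^ 2) := Real.sqrt_pos.2 (by positivity)
  simp only [proj, map_smul, map_sub, LinearMap.smul_apply, LinearMap.sub_apply, smul_eq_mul]
  field_simp

theorem Conf.step (h : Conf B e) {S : Finset ι} {y : V} (hF : Face B e S y) {a : ι}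
    (ha : Nb B e S a) : Face B e (insert a S) (proj B y (e a)) := by
  have hs := h.lor.symm
  have hr : 0 < √(1 + B y (e a) ^ 2) := Real.sqrt_pos.2 (by positivity)
  have hrr : √(1 + B y (e a) ^ 2) ^ 2 = 1 + B y (e a) ^ 2 := Real.sq_sqrt (by positivity)
  have hp := proj_apply (B := B) y (e a)
  have h0 : B (proj B y (e a)) (e a) = 0 := by
    have := hp (e a)
    rw [h.unit] at this
    exact (mul_eq_zero.1 (by linarith)).resolve_left hr.ne'
  refine ⟨?_, ?_, ?_, ?_⟩
  · intro s hs1 s' hs2 hne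
    rcases Finset.mem_insert.1 hs1 with h1 | h1 <;>
      rcases Finset.mem_insert.1 hs2 with h2 | h2
    · exact absurd (h1.trans h2.symm) hne
    · rw [h1, hs]; exact ha.2 _ h2
    · rw [h2]; exact ha.2 _ h1
    · exact hF.clique _ h1 _ h2 hne
  · have h1 := hp (proj B y (e a))
    have h2 := hp y
    rw [hs (e a), h0, hs y (proj B y (e a))] at h1
    rw [hF.unit, hs (e a) y] at h2
    have h3 : √(1 + B y (e a) ^ 2) ^ 2 * (B (proj B y (e a)) (proj B y (e a)) + 1) = 0 := by
      have : √(1 + B y (e a) ^ 2) * (√(1 + B y (e a) ^ 2) *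
        B (proj B y (e a)) (proj B y (e a))) = -1 - B y (e a) * B y (e a) := by
        rw [h1, ← h2]; ring
      nlinarith
    have := (mul_eq_zero.1 h3).resolve_left (by positivity)
    linarith
  · intro s hs1
    rcases Finset.mem_insert.1 hs1 with rfl | hs1
    · exact h0
    · have := hp (e s)
      rw [hF.orth s hs1, hs (e a), ha.2 s hs1] at this
      exact (mul_eq_zero.1 (by linarith)).resolve_left hr.ne'
  · intro j hj
    rw [Finset.mem_insert, not_or] at hj
    have h1 := hp (e j)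
    have h2 := hF.neg j hj.2
    have h3 := mul_nonneg_of_nonpos_of_nonpos (hF.neg a ha.1).le (h.gram_le (Ne.symm hj.1))
    by_contra hc
    push Not at hc
    nlinarith [mul_nonneg hr.le hc]

theorem Nb.of_insert {S : Finset ι} {a j : ι} (h : Nb B e (insert a S) j) :
    Nb B e S j ∧ B (e a) (e j) = 0 :=
  ⟨⟨fun hj => h.1 (Finset.mem_insert_of_mem hj), fun s hs => h.2 s (Finset.mem_insert_of_mem hs)⟩,
    h.2 a (Finset.mem_insert_self _ _)⟩

/-- Descent through farthest facets. -/
theorem Conf.descent (h : Conf B e) {x : V} (hx : Face B e ∅ x) (k : ℕ)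
    (hk : k + 3 ≤ Module.finrank ℝ V) :
    ∃ S y, Face B e S y ∧ S.card = k ∧ ∀ j, Nb B e S j → k * B y (e j) ^ 2 < 1 := by
  induction k with
  | zero => exact ⟨∅, x, hx, rfl, by simp⟩
  | succ k ih =>
    obtain ⟨S, y, hF, hc, hT⟩ := ih (by omega)
    obtain ⟨a, ha, hmax⟩ := Set.exists_min_image {j | Nb B e S j} (fun j => B y (e j))
      (Set.toFinite _) (h.exists_nb hF (by omega))
    refine ⟨insert a S, _, h.step hF ha, by rw [Finset.card_insert_of_notMem ha.1, hc],
      fun j hj => ?_⟩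
    obtain ⟨hj1, hj2⟩ := hj.of_insert
    have h1 := proj_apply (B := B) y (e a) (e j)
    rw [hj2, mul_zero, sub_zero] at h1
    have hrr : √(1 + B y (e a) ^ 2) ^ 2 = 1 + B y (e a) ^ 2 := Real.sq_sqrt (by positivity)
    have h2 : (1 + B y (e a) ^ 2) * B (proj B y (e a)) (e j) ^ 2 = B y (e j) ^ 2 := by
      rw [← h1, mul_pow, hrr]
    have h3 := hT j hj1
    have h4 := hmax j hj1
    have h5 := hF.neg j hj1.1
    have h6 : B y (e j) ^ 2 ≤ B y (e a) ^ 2 := by nlinarith
    have h7 : 0 < 1 + B y (e a) ^ 2 := by positivity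
    push_cast
    refine lt_of_mul_lt_mul_left ?_ h7.le
    nlinarith

/-- Each end of a side is covered by another side. -/
theorem Conf.cover_end (h : Conf B e) {S : Finset ι} {y : V} (hF : Face B e S y)
    (hc : S.card + 3 ≤ Module.finrank ℝ V) {a : ι} (ha : Nb B e S a) {l : V}
    (hl : ∀ s ∈ S, B l (e s) = 0) (hla : B l (e a) = 0) (hll : B l l = 0) :
    ∃ j, Nb B e S j ∧ j ≠ a ∧ 0 ≤ B l (e j) := by
  by_contra hn
  push Not at hn
  obtain ⟨ε, hε0, -, hε⟩ := exists_small (a := fun j => B l (e j)) (b := fun j => B (e a) (e j))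
    (fun j => Nb B e S j ∧ j ≠ a) fun j hj => hn j hj.1 hj.2
  refine h.cov hF hc (z := l - ε • e a) (fun s hs => ?_) ?_ fun j hj => ?_
  · simp [hl s hs, h.lor.symm (e a) (e s), ha.2 s hs]
  · simp [hll, hla, h.lor.symm (e a) l, h.unit, hε0]
  · by_cases hja : j = a
    · simp [hja, hla, h.unit, hε0.le]
    · simpa using (hε j ⟨hj, hja⟩).le

theorem num_TT {a b c : ℝ} (ha : 7 * a ^ 2 < 1) (hb : 7 * b ^ 2 < 1) (hc : 7 * c ^ 2 < 1) :
    2 * (a + b) * (a + c) < 1 + a ^ 2 := by
  nlinarith [sq_nonneg (a - b), sq_nonneg (a - c), sq_nonneg (b - c)]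

theorem num_OT {a b c R : ℝ} (ha : 7 * a ^ 2 < 1) (hb : 7 * b ^ 2 < 1) (hc : 7 * c ^ 2 < 1)
    (hR : R ^ 2 = 1 + a ^ 2 + b ^ 2) : (a + c) * (b + R) < 1 + a ^ 2 := by
  nlinarith [sq_nonneg (a - b), sq_nonneg (c - b), sq_nonneg (3 * a - R), sq_nonneg (3 * c - R)]

/-- The coordinates of two sides covering the two ends of a side. -/
theorem num_ends {r a b c g g' q q' k k' : ℝ} (hr : 0 < r) (hrr : r ^ 2 = 1 + a ^ 2)
    (ha0 : 0 < a) (hb0 : 0 < b) (hc0 : 0 < c)
    (ha : 7 * a ^ 2 < 1) (hb : 7 * b ^ 2 < 1) (hc : 7 * c ^ 2 < 1)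
    (hg : g = 0 ∨ g ≤ -1) (hg' : g' = 0 ∨ g' ≤ -1)
    (hk : r * k = b - a * g) (hk' : r * k' = c - a * g')
    (h1 : g * g + q * q - k * k = 1) (h2 : g' * g' + q' * q' - k' * k' = 1)
    (hq : k ≤ q) (hq' : k' ≤ q')
    (h3 : g * g' - q * q' - k * k' = 0 ∨ g * g' - q * q' - k * k' ≤ -1) : g = 0 := by
  by_contra hne
  have hg1 : g ≤ -1 := hg.resolve_left hne
  have hk0 : 0 < k := by
    by_contra hc
    nlinarith [mul_nonneg hr.le (neg_nonneg.2 (not_lt.1 hc))]
  have hg'0 : g' ≤ 0 := by rcases hg' with h | h <;> linarith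
  have hk'0 : 0 < k' := by
    by_contra hc
    nlinarith [mul_nonneg hr.le (neg_nonneg.2 (not_lt.1 hc)), mul_nonneg ha0.le (neg_nonneg.2 hg'0)]
  have hgq : g = -1 ∧ q = k := by
    constructor <;> nlinarith
  obtain ⟨rfl, rfl⟩ := hgq
  rcases hg' with rfl | hg'
  · have h4 := num_OT ha hc hb (R := r * q') (by
      have : q' * q' = 1 + k' * k' := by linarith
      have h5 : (r * q') ^ 2 = r ^ 2 + (r * k') ^ 2 := by
        rw [mul_pow, mul_pow, sq q', this]; ring
      rw [h5, hk', hrr]; ring)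
    have h5 : r ^ 2 * (q * q' + q * k') = (a + b) * (c + r * q') := by
      have : r ^ 2 * (q * q' + q * k') = (r * q) * (r * k' + r * q') := by ring
      rw [this, hk, hk']; ring
    have h6 : 0 < q * q' + q * k' := by nlinarith [mul_pos hk0 hk'0]
    have h7 : 1 ≤ q * q' + q * k' := by rcases h3 with h3 | h3 <;> linarith
    nlinarith [sq_pos_of_pos hr]
  · have hgq : g' = -1 ∧ q' = k' := by
      constructor <;> nlinarith
    obtain ⟨rfl, rfl⟩ := hgq
    have h4 := num_TT ha hb hc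
    have h5 : r ^ 2 * (2 * (q * q')) = 2 * (a + b) * (a + c) := by
      have : r ^ 2 * (2 * (q * q')) = 2 * (r * q) * (r * q') := by ring
      rw [this, hk, hk']; ring
    have h7 : 1 ≤ 2 * (q * q') := by rcases h3 with h3 | h3 <;> linarith
    nlinarith [sq_pos_of_pos hr]

theorem Face.hv0 {S : Finset ι} {y : V} (hF : Face B e S y) (i j : S) (hij : i ≠ j) :
    B (e i) (e j) = 0 :=
  hF.clique i i.2 j j.2 fun h => hij (Subtype.ext h)

/-- In a polygon all of whose sides are close to `y`, each side has two orthogonal neighbours. -/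
theorem Conf.two_nb (h : Conf B e) {S : Finset ι} {y : V} (hF : Face B e S y)
    (hc : S.card + 3 = Module.finrank ℝ V) (hT : ∀ j, Nb B e S j → 7 * B y (e j) ^ 2 < 1)
    {a : ι} (ha : Nb B e S a) :
    ∃ b c, Nb B e S b ∧ Nb B e S c ∧ b ≠ c ∧ B (e a) (e b) = 0 ∧ B (e a) (e c) = 0 := by
  have hs := h.lor.symm
  have hF' := h.step hF ha
  set f := proj B y (e a) with hf
  obtain ⟨v, hvv, hfv, hw⟩ := h.lor.exists_unit (fun o : Option S => o.elim (e a) fun s => e s)
    (y := f) (by rw [hF'.unit]; norm_num) (by simp; omega)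
  have hav : B (e a) v = 0 := hw none
  have hSv : ∀ s : S, B (e s) v = 0 := fun s => hw (some s)
  have hfa : B f (e a) = 0 := hF'.orth a (Finset.mem_insert_self _ _)
  have hfS : ∀ s ∈ S, B f (e s) = 0 := fun s hs' => hF'.orth s (Finset.mem_insert_of_mem hs')
  have hex : ∀ i, Nb B e S i → ∀ w, B (e i) w = B (e i) (e a) * B w (e a) + B (e i) v * B w v -
      B (e i) f * B w f := fun i hi w =>
    h.lor.expand (v := fun s : S => e s) (fun s => h.unit s) hF.hv0 (by simpa using hc)
      (h.unit a) hvv hF'.unit hav ((hs _ _).trans hfa) ((hs _ _).trans hfv)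
      (fun s => ha.2 s s.2) hSv (fun s => (hs _ _).trans (hfS s s.2)) (fun s => hi.2 s s.2) w
  obtain ⟨b, hb, hba, hb0⟩ := h.cover_end hF hc.le ha (l := f + v)
    (fun s hs' => by simp [hfS s hs', hs v (e s), hSv ⟨s, hs'⟩])
    (by simp [hfa, hs v (e a), hav]) (by simp [hF'.unit, hfv, hs v f, hvv])
  obtain ⟨c, hc', hca, hc0⟩ := h.cover_end hF hc.le ha (l := f - v)
    (fun s hs' => by simp [hfS s hs', hs v (e s), hSv ⟨s, hs'⟩])
    (by simp [hfa, hs v (e a), hav]) (by simp [hF'.unit, hfv, hs v f, hvv])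
  simp only [map_add, map_sub, LinearMap.add_apply, LinearMap.sub_apply, hs f, hs v] at hb0 hc0
  have hr : 0 < √(1 + B y (e a) ^ 2) := Real.sqrt_pos.2 (by positivity)
  have hrr : √(1 + B y (e a) ^ 2) ^ 2 = 1 + (-B y (e a)) ^ 2 := by
    rw [Real.sq_sqrt (by positivity)]; ring
  have hpb := proj_apply (B := B) y (e a) (e b)
  have hpc := proj_apply (B := B) y (e a) (e c)
  rw [← hf, hs f, hs (e a)] at hpb hpc
  have hfb : B (e b) f < 0 := by
    rw [hs]; exact hF'.neg b (by simp [hba, hb.1])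
  have hfc : B (e c) f < 0 := by
    rw [hs]; exact hF'.neg c (by simp [hca, hc'.1])
  have hbc : b ≠ c := by
    rintro rfl
    linarith
  have h1 := hex b hb (e b)
  have h2 := hex c hc' (e c)
  have h3 := hex b hb (e c)
  rw [h.unit] at h1 h2
  have h4 := h.gram b c hbc
  have ta := hT a ha
  have tb := hT b hb
  have tc := hT c hc'
  have na := hF.neg a ha.1
  have nb := hF.neg b hb.1
  have nc := hF.neg c hc'.1
  refine ⟨b, c, hb, hc', hbc, ?_, ?_⟩
  · rw [hs]
    exact num_ends (b := -B y (e b)) (c := -B y (e c)) (g' := B (e c) (e a)) (q := B (e b) v)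
      (q' := -B (e c) v) (k := -B (e b) f) (k' := -B (e c) f) hr hrr (by linarith) (by linarith)
      (by linarith) (by linarith) (by linarith) (by linarith) (h.gram b a hba) (h.gram c a hca)
      (by linarith) (by linarith) (by linarith) (by linarith) (by linarith) (by linarith)
      (by rcases h4 with h4 | h4; exacts [Or.inl (by linarith), Or.inr (by linarith)])
  · rw [hs]
    exact num_ends (b := -B y (e c)) (c := -B y (e b)) (g' := B (e b) (e a)) (q := -B (e c) v)
      (q' := B (e b) v) (k := -B (e c) f) (k' := -B (e b) f) hr hrr (by linarith) (by linarith)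
      (by linarith) (by linarith) (by linarith) (by linarith) (h.gram c a hca) (h.gram b a hba)
      (by linarith) (by linarith) (by linarith) (by linarith) (by linarith) (by linarith)
      (by rcases h4 with h4 | h4; exacts [Or.inl (by linarith), Or.inr (by linarith)])

theorem num_lt_one {ρ b c β γ : ℝ} (hρ : 1 ≤ ρ) (hb0 : 0 < b) (hc0 : 0 < c)
    (hb : 7 * b ^ 2 < 1) (hc : 7 * c ^ 2 < 1) (hβ : β ≤ 0) (hγ : 0 < γ)
    (h1 : β * β - γ * γ = 1) (h2 : ρ * γ = c - b * β) : γ < 1 := by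
  by_contra hn
  push Not at hn
  have hb' : b < 0.38 := by nlinarith
  have hc' : c < 0.38 := by nlinarith
  have h3 : -β ≤ 1.5 * γ := by nlinarith
  nlinarith

/-- A finite-area right-angled polygon has a side at distance at least `arsinh (1 / √7)`. -/
theorem Conf.base (h : Conf B e) {S : Finset ι} {y : V} (hF : Face B e S y)
    (hc : S.card + 3 = Module.finrank ℝ V) (hT : ∀ j, Nb B e S j → 7 * B y (e j) ^ 2 < 1) :
    False := by
  have hs := h.lor.symm
  obtain ⟨a, ha⟩ := h.exists_nb hF hc.le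
  obtain ⟨b, c, hb, hc', hbc, hab, hac⟩ := h.two_nb hF hc hT ha
  obtain ⟨d, hd, hda, hbd⟩ : ∃ d, Nb B e S d ∧ d ≠ a ∧ B (e b) (e d) = 0 := by
    obtain ⟨d, d', hd, hd', hdd, h1, h2⟩ := h.two_nb hF hc hT hb
    by_cases hda : d = a
    · exact ⟨d', hd', fun e => hdd (hda.trans e.symm), h2⟩
    · exact ⟨d, hd, hda, h1⟩
  have hne : ∀ {i j}, B (e i) (e j) = 0 → i ≠ j := by
    rintro i j h0 rfl
    rw [h.unit] at h0
    exact one_ne_zero h0
  have hF1 := h.step hF ha
  have hb1 : Nb B e (insert a S) b :=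
    ⟨by simp [(hne hab).symm, hb.1], fun s hs' => by
      rcases Finset.mem_insert.1 hs' with rfl | hs'
      exacts [hab, hb.2 s hs']⟩
  have hF2 := h.step hF1 hb1
  set y₁ := proj B y (e a) with hy₁
  set f := proj B y₁ (e b) with hf
  have hfa : B f (e a) = 0 := hF2.orth a (by simp)
  have hfb : B f (e b) = 0 := hF2.orth b (by simp)
  have hfS : ∀ s ∈ S, B f (e s) = 0 := fun s hs' => hF2.orth s (by simp [hs'])
  have hex : ∀ w, (∀ s ∈ S, B (e s) w = 0) → ∀ w', B w w' = B w (e a) * B w' (e a) +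
      B w (e b) * B w' (e b) - B w f * B w' f := fun w hw w' =>
    h.lor.expand (v := fun s : S => e s) (fun s => h.unit s) hF.hv0 (by simpa using hc)
      (h.unit a) (h.unit b) hF2.unit hab ((hs _ _).trans hfa) ((hs _ _).trans hfb)
      (fun s => ha.2 s s.2) (fun s => hb.2 s s.2) (fun s => (hs _ _).trans (hfS s s.2))
      (fun s => hw s s.2) w'
  have hfc : B (e c) f < 0 := by
    rw [hs]; exact hF2.neg c (by simp [hbc.symm, (hne hac).symm, hc'.1])
  have hfd : B (e d) f < 0 := by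
    rw [hs]; exact hF2.neg d (by simp [hda, (hne hbd).symm, hd.1])
  have hyS : ∀ s ∈ S, B (e s) y = 0 := fun s hs' => (hs _ _).trans (hF.orth s hs')
  have h0 := hex y hyS y
  have h1 := hex (e c) hc'.2 (e c)
  have h2 := hex (e d) hd.2 (e d)
  have h3 := hex (e c) hc'.2 (e d)
  have h4 := hex y hyS (e c)
  have h5 := hex y hyS (e d)
  rw [hF.unit] at h0
  rw [h.unit] at h1 h2
  rw [hs (e c) (e a), hac] at h1 h3 h4
  rw [hs (e d) (e b), hbd] at h2 h3 h5
  have na := hF.neg a ha.1
  have nb := hF.neg b hb.1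
  have nc := hF.neg c hc'.1
  have nd := hF.neg d hd.1
  have gcb := h.gram_le hbc.symm
  have gda := h.gram_le hda
  have hρ0 : B y f < 0 := by
    by_contra hn
    push Not at hn
    nlinarith [mul_nonneg hn (neg_nonneg.2 hfc.le), mul_nonneg_of_nonpos_of_nonpos nb.le gcb]
  have hρ : 1 ≤ -B y f := by nlinarith [mul_self_nonneg (B y (e a)), mul_self_nonneg (B y (e b))]
  have hγ := num_lt_one (b := -B y (e b)) (c := -B y (e c)) (γ := -B (e c) f) hρ (by linarith)
    (by linarith) (by have := hT b hb; linarith) (by have := hT c hc'; linarith) gcb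
    (by linarith) (by linarith) (by linarith)
  have hδ := num_lt_one (b := -B y (e a)) (c := -B y (e d)) (γ := -B (e d) f) hρ (by linarith)
    (by linarith) (by have := hT a ha; linarith) (by have := hT d hd; linarith) gda
    (by linarith) (by linarith) (by linarith)
  have hcd : c ≠ d := by
    rintro rfl
    rw [hs (e c) (e b), hbd] at h1
    nlinarith
  have h6 := mul_pos_of_neg_of_neg hfc hfd
  rcases h.gram c d hcd with h7 | h7 <;> nlinarith

/-- The ambient Lorentzian space has dimension at most nine. -/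
theorem Conf.finrank_le (h : Conf B e) {x : V} (hx : Face B e ∅ x) :
    Module.finrank ℝ V ≤ 9 := by
  by_contra hn
  obtain ⟨S, y, hF, hc, hT⟩ := h.descent hx (Module.finrank ℝ V - 3) (by omega)
  refine h.base hF (by omega) fun j hj => lt_of_le_of_lt ?_ (hT j hj)
  have : (7 : ℝ) ≤ (Module.finrank ℝ V - 3 : ℕ) := by exact_mod_cast (by omega)
  gcongr

end Pool.Agent.P.MP_8b77e3_gt
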