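import Pool.Agent.P.MP_8b77e3_gt.Main

/-!
The standard form of signature `(n, 1)` on `Fin (n + 1) → ℝ`.
-/

namespace Pool.Agent.P.MP_8b77e3_gt

/-- The standard Lorentzian form. -/
noncomputable def mink (n : ℕ) : (Fin (n + 1) → ℝ) →ₗ[ℝ] (Fin (n + 1) → ℝ) →ₗ[ℝ] ℝ :=
  LinearMap.mk₂ ℝ
    (fun u v => (∑ k : Fin n, u k.castSucc * v k.castSucc) - u (Fin.last n) * v (Fin.last n))
    (fun u u' v => by simp only [Pi.add_apply, add_mul, Finset.sum_add_distrib]; ring)
    (fun c u v => by
      simp only [Pi.smul_apply, smul_eq_mul, mul_assoc, ← Finset.mul_sum]; ring)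
    (fun u v v' => by simp only [Pi.add_apply, mul_add, Finset.sum_add_distrib]; ring)
    (fun c u v => by
      simp only [Pi.smul_apply, smul_eq_mul, mul_left_comm _ c, ← Finset.mul_sum]; ring)

theorem mink_apply {n : ℕ} (u v : Fin (n + 1) → ℝ) : mink n u v =
    (∑ k : Fin n, u k.castSucc * v k.castSucc) - u (Fin.last n) * v (Fin.last n) := rfl

theorem mink_self {n : ℕ} (u : Fin (n + 1) → ℝ) : mink n u u =
    (∑ k : Fin n, u k.castSucc ^ 2) - u (Fin.last n) ^ 2 := by
  simp only [mink_apply, sq]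

theorem lor_mink (n : ℕ) : Lor (mink n) := by
  refine ⟨fun u v => by simp only [mink_apply, mul_comm], fun y v hy hyv hv => ?_⟩
  rw [mink_self] at hy ⊢
  rw [mink_apply] at hyv
  have hcs := Finset.sum_mul_sq_le_sq_mul_sq Finset.univ (fun k : Fin n => y k.castSucc)
    (fun k : Fin n => v k.castSucc)
  have hY : 0 ≤ ∑ k : Fin n, y k.castSucc ^ 2 := Finset.sum_nonneg fun _ _ => sq_nonneg _
  by_contra hn
  push Not at hn
  rw [sub_eq_zero.1 hyv, mul_pow] at hcs
  have h0 : v (Fin.last n) ^ 2 = 0 := by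
    by_contra h0
    have h1 : 0 < v (Fin.last n) ^ 2 := lt_of_le_of_ne (sq_nonneg _) (Ne.symm h0)
    nlinarith [mul_le_mul_of_nonneg_left (sub_nonpos.1 hn) hY]
  have h1 : ∑ k : Fin n, v k.castSucc ^ 2 = 0 :=
    le_antisymm (by linarith) (Finset.sum_nonneg fun _ _ => sq_nonneg _)
  rw [Finset.sum_eq_zero_iff_of_nonneg fun _ _ => sq_nonneg _] at h1
  refine hv (funext fun k => ?_)
  induction k using Fin.lastCases with
  | last => simpa using h0
  | cast k => simpa using h1 k (Finset.mem_univ _)

theorem no_polytope {n m : ℕ} (hn : 9 ≤ n) {e : Fin m → Fin (n + 1) → ℝ}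
    (h1 : ∀ i, mink n (e i) (e i) = 1)
    (h2 : ∀ i j, i ≠ j → mink n (e i) (e j) = 0 ∨ mink n (e i) (e j) ≤ -1)
    {x : Fin (n + 1) → ℝ} (hx : mink n x x < 0) (hx1 : x (Fin.last n) = 1)
    (hxe : ∀ i, mink n x (e i) < 0)
    (h4 : ∀ z : Fin (n + 1) → ℝ, z (Fin.last n) = 1 → (∀ i, mink n z (e i) ≤ 0) →
      mink n z z ≤ 0) : False := by
  have hL := lor_mink n
  have h5 : ∀ z : Fin (n + 1) → ℝ, 0 < z (Fin.last n) → (∀ i, mink n z (e i) ≤ 0) →
      mink n z z ≤ 0 := fun z hz hze => by
    have hi := inv_pos.2 hz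
    have := h4 ((z (Fin.last n))⁻¹ • z) (by simp [hz.ne']) fun i => by
      simpa using mul_nonpos_of_nonneg_of_nonpos hi.le (hze i)
    simp only [map_smul, LinearMap.smul_apply, smul_eq_mul] at this
    by_contra hc
    exact absurd (mul_pos hi (mul_pos hi (not_le.1 hc))) (not_lt.2 this)
  have hcone : ∀ z, (∀ i, mink n z (e i) ≤ 0) → mink n z z ≤ 0 := by
    intro z hze
    by_contra hz
    push Not at hz
    have hz0 : z (Fin.last n) ≤ 0 := not_lt.1 fun h => absurd (h5 z h hze) (not_le.2 hz)
    set w := z - z (Fin.last n) • x with hw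
    have hw0 : w (Fin.last n) = 0 := by simp [hw, hx1]
    have hwe : ∀ i, mink n w (e i) ≤ 0 := fun i => by
      have := mul_nonneg_of_nonpos_of_nonpos hz0 (hxe i).le
      have := hze i
      simp only [hw, map_sub, map_smul, LinearMap.sub_apply, LinearMap.smul_apply, smul_eq_mul]
      linarith
    have hww : 0 < mink n w w := by
      refine hL.pos (Pi.single (Fin.last n) 1) w (by simp [mink_apply]) (by simp [mink_apply, hw0])
        fun h => ?_
      have h6 : z = z (Fin.last n) • x := sub_eq_zero.1 h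
      rw [h6] at hz
      simp only [map_smul, LinearMap.smul_apply, smul_eq_mul] at hz
      nlinarith [mul_self_nonneg (z (Fin.last n))]
    obtain ⟨μ, hμ0, hμ⟩ : ∃ μ : ℝ, 0 ≤ μ ∧
        0 < mink n x x + 2 * μ * mink n x w + μ ^ 2 * mink n w w := by
      set A := mink n x x
      set C := mink n x w
      set D := mink n w w
      refine ⟨(2 * |C| - A) / D + 1, by have := abs_nonneg C; have : 0 ≤ -A := by linarith
                                        have : 0 ≤ 2 * |C| - A := by linarith
                                        positivity, ?_⟩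
      set μ := (2 * |C| - A) / D + 1 with hμ
      have h7 : μ * D = 2 * |C| - A + D := by rw [hμ]; field_simp
      have h8 : 1 ≤ μ := by
        have : 0 ≤ (2 * |C| - A) / D := div_nonneg (by linarith [abs_nonneg C]) hww.le
        linarith
      have h9 : μ ^ 2 * D = μ * (2 * |C| - A + D) := by rw [← h7]; ring
      nlinarith [neg_abs_le C]
    have := h4 (x + μ • w) (by simp [hx1, hw0]) fun i => by
      have := mul_nonneg hμ0 (neg_nonneg.2 (hwe i))
      have := hxe i
      simp only [map_add, map_smul, LinearMap.add_apply, LinearMap.smul_apply, smul_eq_mul]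
      linarith
    simp only [map_add, map_smul, LinearMap.add_apply, LinearMap.smul_apply, smul_eq_mul,
      hL.symm w x] at this
    nlinarith
  have hC : Conf (mink n) e := ⟨hL, h1, h2, hcone⟩
  have hs : 0 < √(-mink n x x) := Real.sqrt_pos.2 (by linarith)
  have hF : Face (mink n) e ∅ ((√(-mink n x x))⁻¹ • x) := by
    refine ⟨by simp, ?_, by simp, fun j _ => ?_⟩
    · simp only [map_smul, LinearMap.smul_apply, smul_eq_mul]
      field_simp
      rw [Real.sq_sqrt (by linarith)]; ring
    · simpa using mul_neg_of_pos_of_neg (inv_pos.2 hs) (hxe j)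
  have := hC.finrank_le hF
  simp at this
  omega

end Pool.Agent.P.MP_8b77e3_gt
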